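import Mathlib

/-! Project GF (helper754): derivatives of polynomials. -/

set_option autoImplicit false

open MvPolynomial

namespace Pool.Agent.N323.GF

theorem pderiv_facts {σ k : Type*} [Field k] [CharZero k] (F : MvPolynomial σ k) (j : σ)
    (hj : 0 < F.degreeOf j) : pderiv j F ≠ 0 ∧ (pderiv j F).degreeOf j < F.degreeOf j := by
  classical
  constructor
  · obtain ⟨m, hm, hmj⟩ : ∃ m ∈ F.support, 0 < m j := by
      by_contra hcon
      push Not at hcon
      have : F.degreeOf j ≤ 0 := by
        rw [degreeOf_eq_sup]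
        exact Finset.sup_le fun m hm => hcon m hm
      omega
    intro h
    have h1 := coeff_pderiv (i := j) F (m - Finsupp.single j 1)
    rw [h, coeff_zero] at h1
    have h2 : m - Finsupp.single j 1 + Finsupp.single j 1 = m := by
      apply tsub_add_cancel_of_le
      rw [Finsupp.single_le_iff]
      omega
    rw [h2] at h1
    rcases mul_eq_zero.1 h1.symm with h3 | h3
    · exact (mem_support_iff.1 hm) h3
    · norm_cast at h3
  · rw [degreeOf_lt_iff hj]
    intro m hm
    rw [mem_support_iff, coeff_pderiv] at hm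
    have h1 : m + Finsupp.single j 1 ∈ F.support := by
      rw [mem_support_iff]
      exact left_ne_zero_of_mul hm
    have h2 := monomial_le_degreeOf j h1
    rw [Finsupp.add_apply, Finsupp.single_eq_same] at h2
    omega

theorem rel_pderiv {σ k : Type*} [Field k] [CharZero k] {F : MvPolynomial σ k} (hF : Irreducible F)
    {j : σ} (hj : 0 < F.degreeOf j) : IsRelPrime F (pderiv j F) := by
  obtain ⟨h1, h2⟩ := pderiv_facts F j hj
  rw [hF.isRelPrime_iff_not_dvd]
  rintro ⟨G, hG⟩
  have hG0 : G ≠ 0 := by
    rintro rfl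
    rw [mul_zero] at hG
    exact h1 hG
  rw [hG, degreeOf_mul_eq hF.ne_zero hG0] at h2
  omega

theorem rel_X {σ k : Type*} [Field k] {F : MvPolynomial σ k} (hF : Irreducible F)
    {j : σ} (hj : ¬ Associated F (X j)) : IsRelPrime F (X j) := by
  rw [hF.isRelPrime_iff_not_dvd]
  intro h
  have hX : Irreducible (X j : MvPolynomial σ k) := (X_prime).irreducible
  exact hj (hF.associated_of_dvd hX h)

/-- a unit is a constant -/
theorem unit_const {σ k : Type*} [Field k] {F : MvPolynomial σ k} (hF : IsUnit F) :
    ∃ c : k, c ≠ 0 ∧ F = C c := by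
  rw [MvPolynomial.isUnit_iff_eq_C_of_isReduced] at hF
  obtain ⟨c, hc, h⟩ := hF
  exact ⟨c, hc.ne_zero, h⟩

/-- substitution of algebraically independent elements is injective -/
theorem sub_ne {k κ : Type} [Field k] [Field κ] [Algebra k κ] {a r : ℕ} {s : Fin a → κ}
    (hs : AlgebraicIndependent k s) {F : MvPolynomial (Fin a ⊕ Fin r) k} (hF : F ≠ 0) :
    (aeval (Sum.elim (fun i => C (s i)) X : Fin a ⊕ Fin r → MvPolynomial (Fin r) κ) F) ≠ 0 := by
  have key : ∀ F : MvPolynomial (Fin a ⊕ Fin r) k,
      aeval (Sum.elim (fun i => C (s i)) X : Fin a ⊕ Fin r → MvPolynomial (Fin r) κ) F =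
      MvPolynomial.map ((aeval (R := k) s : MvPolynomial (Fin a) k →ₐ[k] κ) :
        MvPolynomial (Fin a) k →+* κ) (sumAlgEquiv k (Fin r) (Fin a) (rename Sum.swap F)) := by
    intro F
    induction F using MvPolynomial.induction_on with
    | C c =>
      rw [aeval_C, rename_C, sumAlgEquiv_C_inl, map_C]
      simp [MvPolynomial.algebraMap_apply]
    | add p q hp hq => simp only [map_add, hp, hq]
    | mul_X p j hp =>
      rw [map_mul, map_mul, map_mul, map_mul, hp, aeval_X, rename_X]
      congr 1
      rcases j with j | j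
      · rw [Sum.elim_inl, Sum.swap_inl, sumAlgEquiv_X_inr, map_C]
        simp
      · rw [Sum.elim_inr, Sum.swap_inr, sumAlgEquiv_X_inl, map_X]
  rw [key]
  intro h
  have h1 : Function.Injective (MvPolynomial.map (σ := Fin r)
      ((aeval (R := k) s : MvPolynomial (Fin a) k →ₐ[k] κ) : MvPolynomial (Fin a) k →+* κ)) :=
    MvPolynomial.map_injective _ hs
  have h2 := h1 (h.trans (map_zero _).symm)
  have h3 : rename Sum.swap F = 0 := (sumAlgEquiv k (Fin r) (Fin a)).injective (h2.trans
    (map_zero _).symm)
  have h4 : Function.Injective (rename (R := k) (Sum.swap : Fin a ⊕ Fin r → Fin r ⊕ Fin a)) :=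
    rename_injective _ Sum.swap_leftInverse.injective
  exact hF (h4 (h3.trans (map_zero _).symm))

/-- substitution and derivatives -/
theorem sub_pderiv {k κ : Type} [Field k] [Field κ] [Algebra k κ] {a r : ℕ} (s : Fin a → κ)
    (j : Fin r) (F : MvPolynomial (Fin a ⊕ Fin r) k) :
    pderiv j (aeval (Sum.elim (fun i => C (s i)) X : Fin a ⊕ Fin r → MvPolynomial (Fin r) κ) F) =
    aeval (Sum.elim (fun i => C (s i)) X : Fin a ⊕ Fin r → MvPolynomial (Fin r) κ)
      (pderiv (Sum.inr j) F) := by
  classical
  induction F using MvPolynomial.induction_on with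
  | C c =>
    rw [aeval_C, pderiv_C, map_zero, MvPolynomial.algebraMap_apply, pderiv_C]
  | add p q hp hq => simp only [map_add, hp, hq]
  | mul_X p i hp =>
    rw [map_mul, pderiv_mul, pderiv_mul, map_add, map_mul, map_mul, hp, aeval_X]
    congr 2
    rcases i with i | i
    · rw [Sum.elim_inl, pderiv_C, pderiv_X, Pi.single_eq_of_ne (by simp), map_zero]
    · rw [Sum.elim_inr, pderiv_X, pderiv_X]
      by_cases hij : j = i
      · subst hij
        simp
      · rw [Pi.single_eq_of_ne (Ne.symm hij), Pi.single_eq_of_ne (by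
          intro h
          exact hij (Sum.inr_injective h).symm), map_zero]

end Pool.Agent.N323.GF
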