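import Mathlib
import Pool.Agent.N754.GF.Tl
import Pool.Agent.N323.GF.Alg

/-! Project GF (helper754), part INP2: common zeros and multiple zeros of polynomials in slow
functions and units. -/

set_option autoImplicit false
set_option linter.unusedSectionVars false
set_option linter.overlappingInstances false

open MvPolynomial FF Pool.Agent.W603.LV Filter

namespace Pool.Agent.N323.GF

open Pool.Agent.N754.FV Pool.Agent.N754.GF

variable {k Ω α : Type} [Field k] [Field Ω] [Algebra k Ω] [CharZero k] [IsAlgClosed k]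
  {D : Sy k Ω α} {𝒰 : Ultrafilter α}

/-- common zeros -/
theorem part1 (hE : S_EXT) (hok : Ok D 𝒰) (hG : GCDS hok) {a r : ℕ} (s : Fin a → ∀ t, D.K t)
    (w : Fin r → ∀ t, D.K t) (hs : ∀ i, SlowE D 𝒰 (s i))
    (hsi : ∀ F : MvPolynomial (Fin a) k, F ≠ 0 → ∀ᶠ t in (𝒰 : Filter α),
      aeval (fun i => s i t) F ≠ 0) (hw : Un D 𝒰 w)
    (F G : MvPolynomial (Fin a ⊕ Fin r) k) (hF : F ≠ 0) (hFG : IsRelPrime F G) :
    ∃ Z : ∀ t, Finset (Place k (D.K t)), SlowS D 𝒰 Z ∧ ∀ᶠ t in (𝒰 : Filter α), ∀ P ∉ Z t,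
      ¬ (Ge P 1 (aeval (fun i => (Sum.elim s w : Fin a ⊕ Fin r → ∀ t, D.K t) i t) F) ∧
        Ge P 1 (aeval (fun i => (Sum.elim s w : Fin a ⊕ Fin r → ∀ t, D.K t) i t) G)) := by
  by_cases hG0 : G = 0
  · subst hG0
    rw [isRelPrime_zero_right] at hFG
    obtain ⟨c, hc, rfl⟩ := unit_const hFG
    refine ⟨fun _ => ∅, ?_, Eventually.of_forall fun t P _ h => ?_⟩
    · refine Slow.mono (Slow.zero (Ok.nn hok)) (Eventually.of_forall fun t => ?_)
      simp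
    · have h1 := h.1
      rw [aeval_C] at h1
      rcases h1 with h1 | h1
      · exact hc ((map_eq_zero _).1 h1)
      · rw [P.ord_const hc] at h1
        omega
  · have h1 := hE k (κS hok) a r (sG hok s hs) (sG_ind hok s hs hsi) F G hF hG0 hFG
    exact hG r w hw (tl hok s hs F) (tl hok s hs G) (sub_ne (sG_ind hok s hs hsi) hF) h1 _ _
      (tl_val hok s hs w F) (tl_val hok s hs w G)

section der

variable (δ : ∀ t, Derivation k (D.K t) (D.K t))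

/-- the derivation of germs, on representatives -/
noncomputable def dL (b : LS D 𝒰) : LS D 𝒰 :=
  ⟨gs D 𝒰 fun t => δ t ((Classical.choose b.2) t), ⟨_, rfl⟩⟩

theorem dL_gs (x : ∀ t, D.K t) (b : LS D 𝒰) (hb : (b : GC Ω α 𝒰) = gs D 𝒰 x) :
    ((dL (𝒰 := 𝒰) δ b : LS D 𝒰) : GC Ω α 𝒰) = gs D 𝒰 fun t => δ t (x t) := by
  have h1 : gs D 𝒰 x = gs D 𝒰 (Classical.choose b.2) := hb.symm.trans (Classical.choose_spec b.2)
  rw [gs_eq] at h1
  show gs D 𝒰 _ = gs D 𝒰 _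
  rw [gs_eq]
  filter_upwards [h1] with t ht
  rw [ht]

/-- the derivation of germs -/
noncomputable def DL : Derivation ℤ (LS D 𝒰) (LS D 𝒰) :=
  Derivation.mk' (AddMonoidHom.toIntLinearMap
    { toFun := dL δ
      map_zero' := by
        apply Subtype.ext
        rw [dL_gs δ (fun _ => 0) 0 (by
          show (0 : GC Ω α 𝒰) = _
          exact (gs_zero D 𝒰).symm)]
        simp only [map_zero]
        exact gs_zero D 𝒰
      map_add' := by
        rintro ⟨_, x, rfl⟩ ⟨_, y, rfl⟩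
        apply Subtype.ext
        rw [dL_gs δ (fun t => x t + y t) _ (by
          show gs D 𝒰 x + gs D 𝒰 y = _
          exact (gs_add D 𝒰 x y).symm)]
        show _ = ((dL δ (⟨gs D 𝒰 x, ⟨x, rfl⟩⟩ : LS D 𝒰) : LS D 𝒰) : GC Ω α 𝒰) +
          ((dL δ (⟨gs D 𝒰 y, ⟨y, rfl⟩⟩ : LS D 𝒰) : LS D 𝒰) : GC Ω α 𝒰)
        rw [dL_gs δ x ⟨gs D 𝒰 x, ⟨x, rfl⟩⟩ rfl, dL_gs δ y ⟨gs D 𝒰 y, ⟨y, rfl⟩⟩ rfl, ← gs_add]
        simp only [map_add] }) (by
    rintro ⟨_, x, rfl⟩ ⟨_, y, rfl⟩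
    apply Subtype.ext
    show ((dL δ ((⟨gs D 𝒰 x, ⟨x, rfl⟩⟩ : LS D 𝒰) * ⟨gs D 𝒰 y, ⟨y, rfl⟩⟩) : LS D 𝒰) : GC Ω α 𝒰) =
      gs D 𝒰 x * ((dL δ (⟨gs D 𝒰 y, ⟨y, rfl⟩⟩ : LS D 𝒰) : LS D 𝒰) : GC Ω α 𝒰) +
      gs D 𝒰 y * ((dL δ (⟨gs D 𝒰 x, ⟨x, rfl⟩⟩ : LS D 𝒰) : LS D 𝒰) : GC Ω α 𝒰)
    rw [dL_gs δ (fun t => x t * y t) _ (by
          show gs D 𝒰 x * gs D 𝒰 y = _
          exact (gs_mul D 𝒰 x y).symm), dL_gs δ x ⟨gs D 𝒰 x, ⟨x, rfl⟩⟩ rfl,
          dL_gs δ y ⟨gs D 𝒰 y, ⟨y, rfl⟩⟩ rfl, ← gs_mul, ← gs_mul,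
          ← gs_add]
    simp only [Derivation.leibniz, smul_eq_mul])

theorem DL_gs (x : ∀ t, D.K t) (b : LS D 𝒰) (hb : (b : GC Ω α 𝒰) = gs D 𝒰 x) :
    ((DL (𝒰 := 𝒰) δ b : LS D 𝒰) : GC Ω α 𝒰) = gs D 𝒰 fun t => δ t (x t) := dL_gs δ x b hb

end der

theorem κS_le (hok : Ok D 𝒰) : κS hok ≤ LS D 𝒰 := by
  rintro b ⟨x, hx, -⟩
  exact ⟨x, hx⟩

/-- multiple zeros -/
theorem part2 (hE : S_EXT) (hA : S_ALG) (hD : S_DER) (hok : Ok D 𝒰) (hI : IND hok)
    (hG : GCDS hok) {a r : ℕ} (s : Fin a → ∀ t, D.K t)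
    (w : Fin r → ∀ t, D.K t) (hs : ∀ i, SlowE D 𝒰 (s i))
    (hsi : ∀ F : MvPolynomial (Fin a) k, F ≠ 0 → ∀ᶠ t in (𝒰 : Filter α),
      aeval (fun i => s i t) F ≠ 0) (hw : Un D 𝒰 w)
    (F : MvPolynomial (Fin a ⊕ Fin r) k) (hF : Irreducible F) (j : Fin r)
    (hj : 0 < F.degreeOf (Sum.inr j)) (hX : ∀ j : Fin r, ¬ Associated F (X (Sum.inr j))) :
    ∃ Z : ∀ t, Finset (Place k (D.K t)), SlowS D 𝒰 Z ∧ ∀ᶠ t in (𝒰 : Filter α), ∀ P ∉ Z t,
      ¬ Ge P 2 (aeval (fun i => (Sum.elim s w : Fin a ⊕ Fin r → ∀ t, D.K t) i t) F) := by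
  classical
  have hsind := sG_ind hok s hs hsi
  have hne := (pderiv_facts F _ hj).1
  -- the polynomial over the slow germs
  obtain ⟨p, hp⟩ : ∃ p, p = tl (r := r) hok s hs F := ⟨_, rfl⟩
  have hp0 : p ≠ 0 := by rw [hp]; exact sub_ne hsind hF.ne_zero
  have hp1 : IsRelPrime p (pderiv j p) := by
    rw [hp]
    unfold tl
    rw [sub_pderiv]
    exact hE k (κS hok) a r (sG hok s hs) hsind F _ hF.ne_zero hne (rel_pderiv hF hj)
  have hp2 : ∀ i, ¬ X i ∣ p := by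
    intro i hi
    have h1 := hE k (κS hok) a r (sG hok s hs) hsind F (X (Sum.inr i)) hF.ne_zero (X_ne_zero _)
      (rel_X hF (hX i))
    rw [aeval_X, Sum.elim_inr] at h1
    rw [hp] at hi
    have h2 : IsUnit (X i : MvPolynomial (Fin r) (κS hok)) := h1 hi dvd_rfl
    exact (X_prime (R := κS hok) (i := i)).not_isUnit h2
  -- the unit `w j` is not constant
  have hgood : ∀ᶠ t in (𝒰 : Filter α), w j t ≠ 0 ∧ (∀ P ∉ D.S t, P.ord (w j t) = 0) ∧
      ∀ c : k, w j t ≠ algebraMap k (D.K t) c := by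
    have h1 : ∀ᶠ t in (𝒰 : Filter α), ∀ c : k, w j t ≠ algebraMap k (D.K t) c := by
      by_contra hcon
      rw [← Ultrafilter.eventually_not] at hcon
      push Not at hcon
      have h2 : SlowE D 𝒰 (w j) := by
        let c : α → k := fun t => if h : ∃ c : k, w j t = algebraMap k (D.K t) c then h.choose else 0
        refine (SlowE.const (Ok.nn hok) c).congr ?_
        filter_upwards [hcon] with t ht
        show algebraMap k (D.K t) (c t) = _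
        simp only [c, dif_pos ht]
        exact ht.choose_spec.symm
      have h3 := hw.ind (Pi.single j 1) (h2.congr (Eventually.of_forall fun t => by
        show w j t = _
        rw [Finset.prod_eq_single j]
        · rw [Pi.single_eq_same, zpow_one]
        · intro i _ hij
          rw [Pi.single_eq_of_ne hij, zpow_zero]
        · intro h
          exact absurd (Finset.mem_univ _) h))
      have h4 := congrFun h3 j
      rw [Pi.single_eq_same, Pi.zero_apply] at h4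
      exact one_ne_zero h4
    filter_upwards [h1, hw.unit j] with t h2 h3
    exact ⟨h3.1, h3.2, h2⟩
  have hchoice : ∀ t, ∃ (δ : Derivation k (D.K t) (D.K t)) (Z : Finset (Place k (D.K t))),
      (w j t ≠ 0 ∧ (∀ P ∉ D.S t, P.ord (w j t) = 0) ∧ ∀ c : k, w j t ≠ algebraMap k (D.K t) c) →
      (δ (w j t) = w j t ∧ (Z.card : ℤ) ≤ euler (D.S t) ∧
      (∀ x, δ x = 0 → ∃ c : k, x = algebraMap k (D.K t) c) ∧
      (∀ P ∉ D.S t, P ∉ Z → ∀ f, Ge P 2 f → Ge P 1 (δ f)) ∧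
      (∀ f, hgt k (δ f) ≤ 2 * hgt k f + euler (D.S t)) ∧
      ∀ u, u ≠ 0 → (∀ P ∉ D.S t, P.ord u = 0) →
        hgt k (δ u / u) ≤ euler (D.S t) + (D.S t).card) := by
    intro t
    by_cases h : w j t ≠ 0 ∧ (∀ P ∉ D.S t, P.ord (w j t) = 0) ∧
        ∀ c : k, w j t ≠ algebraMap k (D.K t) c
    · obtain ⟨δ, Z, h1⟩ := hD k (D.K t) (D.S t) (w j t) h.1 h.2.1 h.2.2
      exact ⟨δ, Z, fun _ => h1⟩
    · exact ⟨0, ∅, fun h' => absurd h' h⟩
  choose δ Zt hδ using hchoice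
  -- the algebra structures
  let _ : Algebra (κS hok) (LS D 𝒰) := (Subfield.inclusion (κS_le hok)).toAlgebra
  have halg : ∀ c : κS hok, ((algebraMap (κS hok) (LS D 𝒰) c : LS D 𝒰) : GC Ω α 𝒰) = c :=
    fun _ => rfl
  have : CharZero (κS hok) := charZero_of_injective_algebraMap
    (FaithfulSMul.algebraMap_injective k (κS hok))
  let f : LS D 𝒰 →ₐ[κS hok] GC Ω α 𝒰 := { (LS D 𝒰).subtype with commutes' := fun c => rfl }
  let wL : Fin r → LS D 𝒰 := fun i => ⟨gs D 𝒰 (w i), ⟨_, rfl⟩⟩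
  have hslowE : ∀ x : ∀ t, D.K t, SlowE D 𝒰 x → SlowE D 𝒰 fun t => δ t (x t) := by
    intro x hx
    have h1 : Slow D 𝒰 fun t => 2 * ((hgt k (x t) : ℤ) : ℝ) + ((euler (D.S t) : ℤ) : ℝ) :=
      Slow.add (Slow.smul hx 2 (by norm_num) (Ok.nn hok)) hok.eul
    refine Slow.mono h1 ?_
    filter_upwards [hgood] with t ht
    have h2 := (hδ t ht).2.2.2.2.1 (x t)
    exact_mod_cast h2
  obtain ⟨q, hq1, hq2⟩ := hA (κS hok) (LS D 𝒰) r wL (DL δ) (by
      rintro ⟨_, x, rfl, hx⟩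
      refine ⟨⟨gs D 𝒰 fun t => δ t (x t), (gs_mem_κS hok _).2 (hslowE x hx)⟩, Subtype.ext ?_⟩
      rw [DL_gs δ x _ rfl]
      rfl) (by
      intro i
      have hslow : SlowE D 𝒰 fun t => δ t (w i t) / w i t := by
        have h1 : Slow D 𝒰 fun t => ((euler (D.S t) : ℤ) : ℝ) + ((D.S t).card : ℝ) :=
          Slow.add hok.eul hok.card
        refine Slow.mono h1 ?_
        filter_upwards [hgood, hw.unit i] with t ht hu
        have h2 := (hδ t ht).2.2.2.2.2 (w i t) hu.1 hu.2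
        exact_mod_cast h2
      refine ⟨⟨gs D 𝒰 fun t => δ t (w i t) / w i t, (gs_mem_κS hok _).2 hslow⟩, Subtype.ext ?_⟩
      rw [DL_gs δ (w i) _ rfl]
      show _ = gs D 𝒰 (fun t => δ t (w i t) / w i t) * gs D 𝒰 (w i)
      rw [← gs_mul, gs_eq]
      filter_upwards [hw.unit i] with t hu
      rw [div_mul_cancel₀ _ hu.1]) (by
      rintro ⟨_, x, rfl⟩ hx
      have h1 : gs D 𝒰 (fun t => δ t (x t)) = 0 := by
        rw [← DL_gs δ x (⟨gs D 𝒰 x, ⟨x, rfl⟩⟩ : LS D 𝒰) rfl, hx]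
        rfl
      rw [← gs_zero D 𝒰, gs_eq] at h1
      have h2 : SlowE D 𝒰 x := by
        let c : α → k := fun t => if h : ∃ c : k, x t = algebraMap k (D.K t) c then h.choose else 0
        refine (SlowE.const (Ok.nn hok) c).congr ?_
        filter_upwards [h1, hgood] with t ht hg
        have h3 := (hδ t hg).2.2.1 (x t) ht
        show algebraMap k (D.K t) (c t) = _
        simp only [c, dif_pos h3]
        exact h3.choose_spec.symm
      exact ⟨⟨gs D 𝒰 x, (gs_mem_κS hok _).2 h2⟩, Subtype.ext rfl⟩)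
      (AlgebraicIndependent.of_comp f (hI r w hw)) p hp0 hp2 ⟨j, hp1⟩
  -- common zeros
  obtain ⟨ev, hev⟩ : ∃ ev : ∀ t, D.K t, ev = fun t =>
    aeval (fun i => (Sum.elim s w : Fin a ⊕ Fin r → ∀ t, D.K t) i t) F := ⟨_, rfl⟩
  have hv1 : gs D 𝒰 ev = aeval (fun i => gs D 𝒰 (w i)) p := by
    rw [hev, hp]
    exact tl_val hok s hs w F
  have hf : ∀ q' : MvPolynomial (Fin r) (κS hok),
      ((aeval wL q' : LS D 𝒰) : GC Ω α 𝒰) = aeval (fun i => gs D 𝒰 (w i)) q' := by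
    intro q'
    have := MvPolynomial.comp_aeval_apply (R := κS hok) wL f q'
    exact this
  have hv2 : gs D 𝒰 (fun t => δ t (ev t)) = aeval (fun i => gs D 𝒰 (w i)) q := by
    rw [← hf q, hq1, DL_gs δ ev _ (by rw [hf p, hv1])]
  obtain ⟨Z', hZ'1, hZ'2⟩ := hG r w hw p q hp0 hq2 ev _ hv1 hv2
  refine ⟨fun t => Z' t ∪ Zt t ∪ D.S t, ?_, ?_⟩
  · have h1 : Slow D 𝒰 fun t => ((Z' t).card : ℝ) + ((euler (D.S t) : ℤ) : ℝ) +
        ((D.S t).card : ℝ) := Slow.add (Slow.add hZ'1 hok.eul) hok.card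
    refine Slow.mono h1 ?_
    filter_upwards [hgood] with t ht
    have h2 := (hδ t ht).2.1
    have h3 : ((Z' t ∪ Zt t ∪ D.S t).card : ℤ) ≤ (Z' t).card + euler (D.S t) + (D.S t).card := by
      have h4 := Finset.card_union_le (Z' t ∪ Zt t) (D.S t)
      have h5 := Finset.card_union_le (Z' t) (Zt t)
      omega
    exact_mod_cast h3
  · filter_upwards [hgood, hZ'2] with t ht h1 P hP h2
    rw [Finset.mem_union, Finset.mem_union, not_or, not_or] at hP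
    have h3 : Ge P 2 (ev t) := by rw [hev]; exact h2
    exact h1 P hP.1.1 ⟨h3.mono (by norm_num), (hδ t ht).2.2.2.1 P hP.2 hP.1.2 _ h3⟩

/-- The second part of the input. -/
theorem inp2 (hE : S_EXT) (hA : S_ALG) (hD : S_DER) : INP2 := by
  intro k Ω α _ _ _ _ _ D 𝒰 hok hI hG a r s w hs hsi hw
  refine ⟨fun F G hF hFG => part1 hE hok hG s w hs hsi hw F G hF hFG, ?_⟩
  rintro F hF ⟨j, hj⟩ hX
  exact part2 hE hA hD hok hI hG s w hs hsi hw F hF j hj hX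

end Pool.Agent.N323.GF
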